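import Pool.Agent.helper87.AU.SpecQ1

/-!
# QA3: the genus from an Apery basis
-/

namespace Pool.Agent.helper53.AU

open scoped Classical IntermediateField
open Polynomial (aeval)

noncomputable section

variable {k F : Type} [Field k] [Field F] [Algebra k F]

/-- the map `φ ↦ ∑ φ_i(x) u_i` on tuples of polynomials of bounded degrees -/
def QA3_T (x : F) {n : ℕ} (u : Fin n → F) (m : Fin n → ℕ) :
    (∀ i : Fin n, Polynomial.degreeLT k (m i)) →ₗ[k] F where
  toFun := fun φ => ∑ i, aeval x (φ i : Polynomial k) * u i
  map_add' := by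
    intro φ ψ
    rw [← Finset.sum_add_distrib]
    apply Finset.sum_congr rfl
    intro i _
    rw [Pi.add_apply, Submodule.coe_add, map_add, add_mul]
  map_smul' := by
    intro c φ
    rw [RingHom.id_apply, Finset.smul_sum]
    apply Finset.sum_congr rfl
    intro i _
    rw [Pi.smul_apply, Submodule.coe_smul, map_smul, smul_mul_assoc]

theorem QA3 (h2 : QA2_stmt) (h3 : QR3_stmt) : QA3_stmt := by
  intro k F _ _ _ _ hF g hg P₀ x n u μ h
  obtain ⟨-, c, hc⟩ := h3 k F hF g hg
  have hn := h.pos
  -- `μ i = n q_i + i`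
  set q : Fin n → ℕ := fun i => μ i / n with hq
  have hμ : ∀ i, μ i = n * q i + i := by
    intro i
    have h1 := Nat.div_add_mod (μ i) n
    rw [h.res i] at h1
    exact h1.symm
  -- a large `M`
  set M : ℕ := c.toNat + 1 + ∑ i, q i with hM
  have hqM : ∀ i, q i ≤ M := by
    intro i
    have := Finset.single_le_sum (f := q) (fun j _ => Nat.zero_le _) (Finset.mem_univ i)
    omega
  have hM0 : 0 < n * M := Nat.mul_pos hn (by omega)
  set r : ℤ := n * M - 1 with hr
  set D : Place k F →₀ ℤ := Finsupp.single P₀ r with hD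
  have hdeg : degD D = r := by
    rw [hD, degD, Finsupp.sum_single_index rfl]
  have hMn : (M : ℤ) ≤ n * M := by
    have : M ≤ n * M := Nat.le_mul_of_pos_left M hn
    exact_mod_cast this
  have hcr : c ≤ r := by
    have h1 := Int.self_le_toNat c
    have h2' : ((c.toNat : ℕ) : ℤ) + 1 ≤ M := by
      rw [hM]; push_cast
      have : 0 ≤ ∑ i, (q i : ℤ) := Finset.sum_nonneg fun i _ => by positivity
      omega
    omega
  have hell := hc D (by rw [hdeg]; exact hcr)
  rw [hdeg] at hell
  -- degrees
  have key : ∀ (i : Fin n) (j : ℕ), ((n * j + μ i : ℤ) ≤ r ↔ j < M - q i) := by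
    intro i j
    have hi : (i : ℕ) < n := i.2
    have h1 := hqM i
    rw [hμ i, hr]
    push_cast
    constructor
    · intro h4
      by_contra h5
      push Not at h5
      have h6 : M ≤ j + q i := by omega
      have h7 : (n : ℤ) * M ≤ n * (j + q i) := by
        have : n * M ≤ n * (j + q i) := Nat.mul_le_mul_left n h6
        exact_mod_cast this
      have h8 : (n : ℤ) * (j + q i) = n * j + n * q i := by ring
      have : (0 : ℤ) ≤ (i : ℕ) := by positivity
      omega
    · intro h4
      have h6 : j + q i + 1 ≤ M := by omega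
      have h7 : (n : ℤ) * (j + q i + 1) ≤ n * M := by
        have : n * (j + q i + 1) ≤ n * M := Nat.mul_le_mul_left n h6
        exact_mod_cast this
      have h8 : (n : ℤ) * (j + q i + 1) = n * j + n * q i + n := by ring
      have : ((i : ℕ) : ℤ) < n := by exact_mod_cast hi
      omega
  -- membership in the Riemann-Roch space
  have hmem : ∀ f : F, f ∈ RR D ↔ f ∈ Reg P₀ ∧ P₀.Ge (-r) f := by
    intro f
    constructor
    · rintro (rfl | hf)
      · exact ⟨(Reg P₀).zero_mem, P₀.ge_zero _⟩
      · refine ⟨fun P hP => Or.inr ?_, Or.inr ?_⟩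
        · have := hf P
          rwa [hD, Finsupp.single_eq_of_ne hP, neg_zero] at this
        · have := hf P₀
          rwa [hD, Finsupp.single_eq_same] at this
    · rintro ⟨h4, h5⟩
      by_cases hf : f = 0
      · exact Or.inl hf
      · refine Or.inr fun P => ?_
        by_cases hP : P = P₀
        · subst hP
          rw [hD, Finsupp.single_eq_same]
          exact h5.le hf
        · rw [hD, Finsupp.single_eq_of_ne hP, neg_zero]
          exact (h4 P hP).le hf
  have hTreg : ∀ φ : Fin n → Polynomial k, ∑ i, aeval x (φ i) * u i ∈ Reg P₀ := by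
    intro φ
    apply Subalgebra.sum_mem
    intro i _
    refine (Reg P₀).mul_mem ?_ (h.reg i)
    rw [Polynomial.aeval_eq_sum_range]
    apply Subalgebra.sum_mem
    intro j _
    exact (Reg P₀).smul_mem ((Reg P₀).pow_mem h.xreg j) _
  set T := QA3_T (k := k) x u (fun i => M - q i) with hT
  have hTinj : Function.Injective T := by
    rw [injective_iff_map_eq_zero]
    intro φ hφ
    by_contra hne
    have h4 : ∃ i, (φ i : Polynomial k) ≠ 0 := by
      by_contra h5
      push Not at h5
      apply hne
      funext i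
      exact Subtype.ext (h5 i)
    exact (h2 k F P₀ x n u μ h (fun i => (φ i : Polynomial k)) h4).1 hφ
  have hTran : LinearMap.range T = RR D := by
    ext f
    rw [hmem]
    constructor
    · rintro ⟨φ, rfl⟩
      refine ⟨hTreg _, ?_⟩
      by_cases h4 : ∃ i, (φ i : Polynomial k) ≠ 0
      · obtain ⟨i, hi, h5⟩ := (h2 k F P₀ x n u μ h (fun i => (φ i : Polynomial k)) h4).2.2
        right
        have h6 : (φ i : Polynomial k).natDegree < M - q i :=
          (Polynomial.natDegree_lt_iff_degree_lt hi).2 (Polynomial.mem_degreeLT.1 (φ i).2)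
        have h7 := (key i _).2 h6
        show -r ≤ P₀.ord (∑ i, aeval x (φ i : Polynomial k) * u i)
        rw [h5] at h7
        omega
      · push Not at h4
        left
        show ∑ i, aeval x (φ i : Polynomial k) * u i = 0
        apply Finset.sum_eq_zero
        intro i _
        rw [h4 i]; simp
    · rintro ⟨h4, h5⟩
      obtain ⟨φ, hφ⟩ := h.span f h4
      have h6 : ∀ i, φ i ∈ Polynomial.degreeLT k (M - q i) := by
        intro i
        by_cases hi : φ i = 0
        · rw [hi]; exact Submodule.zero_mem _
        · have h7 := h2 k F P₀ x n u μ h φ ⟨i, hi⟩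
          rw [← hφ] at h7
          have h8 := h7.2.1 i hi
          have h9 := h5.le h7.1
          rw [Polynomial.mem_degreeLT, ← Polynomial.natDegree_lt_iff_degree_lt hi]
          exact (key i _).1 (by omega)
      exact ⟨fun i => ⟨φ i, h6 i⟩, hφ.symm⟩
  have hcard : (ell D : ℤ) = ∑ i, ((M : ℤ) - q i) := by
    have h4 : ell D = ∑ i, (M - q i) := by
      rw [ell, ← hTran, LinearMap.finrank_range_of_inj hTinj, Module.finrank_pi_fintype]
      apply Finset.sum_congr rfl
      intro i _
      rw [(Polynomial.degreeLTEquiv k (M - q i)).finrank_eq, Module.finrank_fin_fun]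
    rw [h4]
    push_cast
    apply Finset.sum_congr rfl
    intro i _
    rw [Nat.cast_sub (hqM i)]
  rw [Finset.sum_sub_distrib] at hcard
  simp only [Finset.sum_const, Finset.card_univ, Fintype.card_fin, nsmul_eq_mul] at hcard
  have hsum : ∑ i, (q i : ℤ) = g := by
    rw [hell, hr] at hcard
    linarith
  have h5 : ∑ i, (μ i : ℤ) = n * g + ∑ i : Fin n, ((i : ℕ) : ℤ) := by
    rw [← hsum, Finset.mul_sum, ← Finset.sum_add_distrib]
    apply Finset.sum_congr rfl
    intro i _
    rw [hμ i]; push_cast; ring
  have h6 : 2 * ∑ i : Fin n, ((i : ℕ) : ℤ) = n * (n - 1) := by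
    rw [Fin.sum_univ_eq_sum_range (fun i => (i : ℤ))]
    have h7 := Finset.sum_range_id_mul_two n
    have h8 : ((∑ i ∈ Finset.range n, i : ℕ) : ℤ) * 2 = n * ((n - 1 : ℕ) : ℤ) := by
      exact_mod_cast h7
    rw [Nat.cast_sub (by omega : 1 ≤ n)] at h8
    push_cast at h8
    linarith
  rw [h5, mul_add, h6]
  ring

end

end Pool.Agent.helper53.AU
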