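import Pool.Agent.helper53.AU.SpecG3

/-!
# C3: the structure of `A` in case (c)
-/

namespace Pool.Agent.helper53.AU

open scoped Classical

/-- in a 2-transitive group of degree `3^c + 1` with two-point stabilisers of order `(3^c-1)/2`, a
nontrivial element of 3-power order fixes at most one point -/
theorem C3_two {G O : Type} [Group G] [MulAction G O] [Finite G] [Finite O] (h2 : TwoTrans G O)
    {c : ℕ} (hc : 1 ≤ c) (hO : Nat.card O = 3 ^ c + 1)
    (hs : ∀ α : O, Nat.card (MulAction.stabilizer G α) = 3 ^ c * ((3 ^ c - 1) / 2)) {x : G}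
    (hx : ∃ n : ℕ, x ^ (3 ^ n) = 1) {β γ : O} (hb : x • β = β) (hg : x • γ = γ) (hne : β ≠ γ) :
    x = 1 := by
  set K := MulAction.stabilizer G β with hK
  have horb : MulAction.orbit K γ = {β}ᶜ := by
    ext δ
    constructor
    · rintro ⟨k, rfl⟩
      simp only [Set.mem_compl_iff, Set.mem_singleton_iff]
      intro h
      apply hne
      have h1 : (k : G) • γ = β := h
      have h2 : (k : G) • β = β := k.2
      have := h1.trans h2.symm
      exact (smul_left_cancel _ this).symm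
    · intro h
      simp only [Set.mem_compl_iff, Set.mem_singleton_iff] at h
      obtain ⟨g, hg1, hg2⟩ := h2 β γ β δ hne (fun h' => h h'.symm)
      exact ⟨⟨g, hg1⟩, hg2⟩
  have hcard : (MulAction.stabilizer K γ).index = 3 ^ c := by
    rw [MulAction.index_stabilizer, horb, Set.ncard_compl, hO, Set.ncard_singleton]
    simp
  have h3 := Subgroup.card_mul_index (MulAction.stabilizer K γ)
  rw [hcard, hs β, mul_comm] at h3
  have h4 : Nat.card (MulAction.stabilizer K γ) = (3 ^ c - 1) / 2 :=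
    Nat.eq_of_mul_eq_mul_left (by positivity) h3
  have hxK : x ∈ K := hb
  have hxs : (⟨x, hxK⟩ : K) ∈ MulAction.stabilizer K γ := hg
  obtain ⟨n, hn⟩ := hx
  have h5 : (⟨⟨x, hxK⟩, hxs⟩ : MulAction.stabilizer K γ) = 1 := by
    rw [← orderOf_eq_one_iff]
    have h6 : orderOf (⟨⟨x, hxK⟩, hxs⟩ : MulAction.stabilizer K γ) ∣ (3 ^ c - 1) / 2 := by
      rw [← h4]; exact orderOf_dvd_natCard _
    have h7 : orderOf (⟨⟨x, hxK⟩, hxs⟩ : MulAction.stabilizer K γ) ∣ 3 ^ n := by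
      apply orderOf_dvd_of_pow_eq_one
      apply Subtype.ext; apply Subtype.ext
      simpa using hn
    obtain ⟨m, -, hm⟩ := (Nat.dvd_prime_pow Nat.prime_three).1 h7
    rw [hm] at h6 ⊢
    rcases Nat.eq_zero_or_pos m with rfl | hm0
    · rfl
    exfalso
    have h8 : 3 ∣ (3 ^ c - 1) / 2 := (dvd_pow_self 3 hm0.ne').trans h6
    have h9 : 3 ∣ 3 ^ c := dvd_pow_self 3 (by omega)
    have h10 : 2 ∣ 3 ^ c - 1 := by
      have : (3 ^ c) % 2 = 1 := by
        rw [Nat.pow_mod]; simp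
      omega
    have h11 : 0 < 3 ^ c := by positivity
    omega
  have := congrArg (fun z : MulAction.stabilizer K γ => ((z : K) : G)) h5
  simpa using this

/-- the elements of 3-power order of a `ThreeCyc` subgroup lie in a 3-group -/
theorem C3_three {G : Type} [Group G] (H : Subgroup G) (h : ThreeCyc H) :
    ∃ P : Subgroup G, IsPGroup 3 P ∧ P ≤ H ∧ ∀ x ∈ H, (∃ n : ℕ, x ^ (3 ^ n) = 1) → x ∈ P := by
  obtain ⟨P, c, hPH, hcH, hP, hnorm, hc3, hgen⟩ := h
  refine ⟨P, hP, hPH, ?_⟩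
  rintro x hx ⟨m, hm⟩
  obtain ⟨p, hp, n, rfl⟩ := hgen x hx
  have key : ∀ k : ℕ, ∃ q ∈ P, (p * c ^ n) ^ k = q * c ^ (n * k) := by
    intro k
    induction k with
    | zero => exact ⟨1, P.one_mem, by simp⟩
    | succ k ih =>
      obtain ⟨q, hq, h1⟩ := ih
      refine ⟨q * (c ^ (n * k) * p * (c ^ (n * k))⁻¹), P.mul_mem hq
        (hnorm _ (H.pow_mem hcH _) _ hp), ?_⟩
      rw [pow_succ, h1, Nat.mul_succ, pow_add]
      group
  obtain ⟨q, hq, h1⟩ := key (3 ^ m)
  rw [hm] at h1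
  have h2 : c ^ (n * 3 ^ m) ∈ P := by
    have : c ^ (n * 3 ^ m) = q⁻¹ := by
      rw [eq_inv_iff_mul_eq_one, ← mul_eq_one_comm]
      exact h1.symm
    rw [this]; exact P.inv_mem hq
  obtain ⟨k, hk⟩ := hP ⟨_, h2⟩
  have h3 : c ^ (n * 3 ^ m * 3 ^ k) = 1 := by
    have := congrArg (fun z : P => (z : G)) hk
    simpa [pow_mul] using this
  have h4 : orderOf c ∣ n * (3 ^ m * 3 ^ k) := by
    rw [← mul_assoc]; exact orderOf_dvd_of_pow_eq_one h3
  have h5 : Nat.Coprime (orderOf c) (3 ^ m * 3 ^ k) := by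
    rw [← pow_add]
    exact Nat.Coprime.pow_right _ (((Nat.Prime.coprime_iff_not_dvd Nat.prime_three).2 hc3).symm)
  have h6 : c ^ n = 1 := orderOf_dvd_iff_pow_eq_one.1 (h5.dvd_of_dvd_mul_right h4)
  rw [h6, mul_one]
  exact hp

section

variable {L Ω : Type} [Group L] [MulAction L Ω] {A E : Subgroup L} {t ρ : L}

theorem C3_uniq (h : CaseC L Ω A E t ρ) {x : L} (hxE : x ∈ E) (hx : ∃ n : ℕ, x ^ (3 ^ n) = 1)
    (h1 : x ≠ 1) {β γ : Ω} (hg : γ ∈ MulAction.orbit E β) (hxb : x • β = β)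
    (hxg : x • γ = γ) : β = γ := by
  have := h.LL.finL
  have := h.LL.finΩ
  by_contra hne
  obtain ⟨c, -, hc3, hcO, hcs⟩ := (h.EG β).card
  have h2 := C3_two (h.EG β).two (by omega : 1 ≤ c) hcO hcs (x := ⟨x, hxE⟩)
    (β := ⟨β, MulAction.mem_orbit_self β⟩) (γ := ⟨γ, hg⟩) (by
      obtain ⟨n, hn⟩ := hx
      exact ⟨n, Subtype.ext (by simpa using hn)⟩) (Subtype.ext hxb) (Subtype.ext hxg)
    (fun h' => hne (congrArg Subtype.val h'))
  exact h1 (congrArg Subtype.val h2)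

theorem C3_fix (h : CaseC L Ω A E t ρ) (P : Subgroup E) (hP : IsPGroup 3 P) (β : Ω) :
    ∃ γ ∈ MulAction.orbit E β, ∀ x : E, x ∈ P → (x : L) • γ = γ := by
  have := h.LL.finL
  have := h.LL.finΩ
  obtain ⟨c, -, hc3, hcO, hcs⟩ := (h.EG β).card
  have : Fact (Nat.Prime 3) := ⟨Nat.prime_three⟩
  obtain ⟨γ, hγ⟩ := hP.nonempty_fixed_point_of_prime_not_dvd_card (MulAction.orbit E β) (by
    rw [hcO]
    have h9 : 3 ∣ 3 ^ c := dvd_pow_self 3 (by omega)
    omega)
  refine ⟨γ, γ.2, fun x hx => ?_⟩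
  have := hγ ⟨x, hx⟩
  exact congrArg Subtype.val this

theorem C3_cau (h : CaseC L Ω A E t ρ) (β : Ω) :
    ∃ y ∈ E, y ≠ 1 ∧ (∃ n : ℕ, y ^ (3 ^ n) = 1) ∧ y • β = β := by
  have := h.LL.finL
  have := h.LL.finΩ
  obtain ⟨c, -, hc3, hcO, hcs⟩ := (h.EG β).card
  have : Fact (Nat.Prime 3) := ⟨Nat.prime_three⟩
  obtain ⟨y, hy⟩ := exists_prime_orderOf_dvd_card' (G := MulAction.stabilizer E
    (⟨β, MulAction.mem_orbit_self β⟩ : MulAction.orbit E β)) 3 (by
      rw [hcs]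
      exact Dvd.dvd.mul_right (dvd_pow_self 3 (by omega)) _)
  refine ⟨((y : E) : L), (y : E).2, ?_, ⟨1, ?_⟩, congrArg Subtype.val y.2⟩
  · intro h1
    have : y = 1 := Subtype.ext (Subtype.ext h1)
    rw [this, orderOf_one] at hy
    omega
  · have h1 : y ^ 3 = 1 := by rw [← hy]; exact pow_orderOf_eq_one y
    have := congrArg (fun z : MulAction.stabilizer E
      (⟨β, MulAction.mem_orbit_self β⟩ : MulAction.orbit E β) => ((z : E) : L)) h1
    simpa using this

/-- nontrivial 3-elements with a common fixed point have the same fixed points -/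
theorem C3_same (h : CaseC L Ω A E t ρ) {x y : L} (hxE : x ∈ E) (hyE : y ∈ E)
    (hx : ∃ n : ℕ, x ^ (3 ^ n) = 1) (hy : ∃ n : ℕ, y ^ (3 ^ n) = 1) (hx1 : x ≠ 1)
    {β β' : Ω} (hxb : x • β = β) (hyb : y • β = β) (hxb' : x • β' = β') : y • β' = β' := by
  obtain ⟨P, hP, -, hPm⟩ := C3_three _ ((h.EC β).stab ⟨β, MulAction.mem_orbit_self β⟩)
  obtain ⟨γ, hγ, hPγ⟩ := C3_fix h P hP β'
  have hxP : (⟨x, hxE⟩ : E) ∈ P := by
    have hs : (⟨x, hxE⟩ : E) • (⟨β, MulAction.mem_orbit_self β⟩ : MulAction.orbit E β) =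
      ⟨β, MulAction.mem_orbit_self β⟩ := Subtype.ext hxb
    apply hPm _ hs
    obtain ⟨n, hn⟩ := hx
    exact ⟨n, Subtype.ext (by simpa using hn)⟩
  have hyP : (⟨y, hyE⟩ : E) ∈ P := by
    have hs : (⟨y, hyE⟩ : E) • (⟨β, MulAction.mem_orbit_self β⟩ : MulAction.orbit E β) =
      ⟨β, MulAction.mem_orbit_self β⟩ := Subtype.ext hyb
    apply hPm _ hs
    obtain ⟨n, hn⟩ := hy
    exact ⟨n, Subtype.ext (by simpa using hn)⟩
  have h1 := C3_uniq h hxE hx hx1 hγ hxb' (hPγ _ hxP)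
  rw [h1]
  exact hPγ _ hyP

theorem C3_stab (h : CaseC L Ω A E t ρ) {y : L} (hyE : y ∈ E)
    (hy : ∃ n : ℕ, y ^ (3 ^ n) = 1) (hy1 : y ≠ 1) {β β' : Ω} (hyb : y • β = β)
    (hyb' : y • β' = β') {g : L} (hg : g ∈ E) (hgb : g • β = β) : g • β' = β' := by
  have h1 : (g * y * g⁻¹) • β = β := by
    have : g⁻¹ • β = β := by rw [inv_smul_eq_iff, hgb]
    rw [mul_smul, mul_smul, this, hyb, hgb]
  have h2 : (g * y * g⁻¹) • β' = β' := by
    refine C3_same h hyE (E.mul_mem (E.mul_mem hg hyE) (E.inv_mem hg)) hy ?_ hy1 hyb h1 hyb'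
    obtain ⟨n, hn⟩ := hy
    exact ⟨n, by rw [conj_pow, hn]; simp⟩
  have h3 : y • (g⁻¹ • β') = g⁻¹ • β' := by
    rw [mul_smul, mul_smul, smul_eq_iff_eq_inv_smul] at h2
    exact h2
  have h4 := C3_uniq h hyE hy hy1 (β := β') (γ := g⁻¹ • β')
    ⟨⟨g⁻¹, E.inv_mem hg⟩, rfl⟩ hyb' h3
  have h5 : g • β' = g • (g⁻¹ • β') := by rw [← h4]
  rw [smul_inv_smul] at h5
  exact h5

/-- `t` is a dihedral witness for `A ∩ E` in `E` -/
theorem C3_dih (h : CaseC L Ω A E t ρ) (htE : t ∈ E) :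
    DihW (A.subgroupOf E) (⟨t, htE⟩ : E) := by
  obtain ⟨h1, h2, h3⟩ := h.dih
  refine ⟨Subtype.ext h1, fun h' => h2 (Subgroup.mem_subgroupOf.1 h'), ?_⟩
  rintro ⟨a, haE⟩ ha ⟨n, hn⟩
  apply Subtype.ext
  exact h3 a (Subgroup.mem_subgroupOf.1 ha) ⟨n, by simpa using congrArg Subtype.val hn⟩

theorem C3_inv (h : CaseC L Ω A E t ρ) (htE : t ∈ E) (α : Ω) {a : L} (ha : a ∈ A) (haE : a ∈ E) :
    t * a * t⁻¹ = a⁻¹ :=
  congrArg Subtype.val ((h.EG α).inverts ⟨t, htE⟩ (C3_dih h htE) ⟨a, haE⟩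
    (Subgroup.mem_subgroupOf.2 ha))

theorem C3_mul_comm {A : Subgroup L} (hA : IsCyclic A) {a b : L} (ha : a ∈ A) (hb : b ∈ A) :
    a * b = b * a := by
  have h1 := (IsCyclic.isMulCommutative (α := A)).is_comm.comm ⟨a, ha⟩ ⟨b, hb⟩
  exact congrArg Subtype.val h1

/-- an element normalising `E`, commuting with `A ∩ E` and `t`, of order prime to `2 |A ∩ E|`,
permutes the points while preserving their stabilisers in `E` -/
theorem C3_pres (hPLL : PLL_stmt) (h6 : P6_stmt) (h : CaseC L Ω A E t ρ) (htE : t ∈ E) {τ : L}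
    (hτA : τ ∈ A) (hτE : τ ∈ E) (hτ : IsInv τ) {a : L} (haE' : ∀ x ∈ E, a⁻¹ * x * a ∈ E)
    (haA : ∀ b ∈ A, b ∈ E → a * b = b * a) (hat : a * t = t * a)
    (hn : Nat.Coprime (orderOf a) (2 * Nat.card (A ⊓ E : Subgroup L))) (α : Ω) :
    ∀ g ∈ E, g • (a • α) = a • α ↔ g • α = α := by
  have := h.LL.finL
  have := h.LL.finΩ
  have hPL := hPLL _ _ _ (h.EC α)
  obtain ⟨-, -, hD, hreg, -⟩ := h6 _ _ _ hPL ⟨τ, hτE⟩ ⟨t, htE⟩ (Subgroup.mem_subgroupOf.2 hτA)
    ⟨Subtype.ext hτ.1, fun h' => hτ.2 (congrArg Subtype.val h')⟩ (C3_dih h htE)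
  obtain ⟨y, hyE, hy1, hy, hya⟩ := C3_cau h (a • α)
  obtain ⟨γ, hγ, hyγ⟩ := C3_fix h (Subgroup.zpowers ⟨y, hyE⟩) (by
    obtain ⟨n, hn⟩ := hy
    intro z
    refine ⟨n, ?_⟩
    obtain ⟨k, hk⟩ := Subgroup.mem_zpowers_iff.1 z.2
    apply Subtype.ext
    rw [Subgroup.coe_pow, ← hk]
    apply Subtype.ext
    simp only [Subgroup.coe_pow, Subgroup.coe_zpow, Subgroup.coe_one]
    rw [← zpow_natCast, ← zpow_mul, mul_comm, zpow_mul, zpow_natCast, hn, one_zpow]) α
  have hyγ' : y • γ = γ := hyγ ⟨y, hyE⟩ (Subgroup.mem_zpowers _)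
  obtain ⟨d, hd, -⟩ := hreg ⟨α, MulAction.mem_orbit_self α⟩ ⟨γ, hγ⟩
  have hdγ : (d : E) • α = γ := congrArg Subtype.val hd
  set e : L := ((d : E) : L) with he
  have heE : e ∈ E := (d : E).2
  have heα : e • α = γ := hdγ
  -- the stabilisers of `a α` and `e α` agree
  have h1 : ∀ g ∈ E, (g • (a • α) = a • α ↔ g • (e • α) = e • α) := by
    intro g hg
    rw [heα]
    exact ⟨C3_stab h hyE hy hy1 hya hyγ' hg, C3_stab h hyE hy hy1 hyγ' hya hg⟩
  -- `e` commutes with `a` and has order dividing `2 |A ∩ E|`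
  have h2 : a * e = e * a ∧ e ^ (2 * Nat.card (A ⊓ E : Subgroup L)) = 1 := by
    have hpow : ∀ b : L, b ∈ A → b ∈ E → b ^ Nat.card (A ⊓ E : Subgroup L) = 1 := by
      intro b hb1 hb2
      have := pow_card_eq_one' (x := (⟨b, hb1, hb2⟩ : (A ⊓ E : Subgroup L)))
      exact congrArg Subtype.val this
    rcases (hD d).1 d.2 with h' | h'
    · have hb : e ∈ A := Subgroup.mem_subgroupOf.1 h'
      exact ⟨haA e hb heE, by rw [mul_comm, pow_mul, hpow e hb heE, one_pow]⟩
    · have hb : e * t ∈ A := Subgroup.mem_subgroupOf.1 h'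
      have hbE : e * t ∈ E := E.mul_mem heE htE
      have htt : t * t = 1 := h.dih.1
      have hti : t⁻¹ = t := inv_eq_of_mul_eq_one_left htt
      have hee : e = (e * t) * t := by rw [mul_assoc, htt, mul_one]
      refine ⟨?_, ?_⟩
      · have h3 := haA _ hb hbE
        calc a * e = a * (e * t) * t := by rw [mul_assoc, ← hee]
          _ = e * t * a * t := by rw [h3]
          _ = e * t * (t * a) := by rw [mul_assoc (e * t), hat]
          _ = e * (t * t) * a := by simp only [mul_assoc]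
          _ = e * a := by rw [htt, mul_one]
      · have h4 := C3_inv h htE α hb hbE
        have h5 : e * e = 1 := by
          rw [hti] at h4
          have h6 : t * (e * t) * t = t * e := by
            rw [mul_assoc, mul_assoc, htt, mul_one]
          rw [h6] at h4
          have h7 : (e * t) * (t * e) = 1 := by rw [h4]; exact mul_inv_cancel _
          calc e * e = (e * t) * (t * e) := by
                rw [mul_assoc, ← mul_assoc t t e, htt, one_mul]
            _ = 1 := h7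
        rw [pow_mul, pow_two, h5, one_pow]
  obtain ⟨hcomm, hpow⟩ := h2
  have haEk : ∀ k : ℕ, ∀ x ∈ E, (a ^ k)⁻¹ * x * a ^ k ∈ E := by
    intro k
    induction k with
    | zero => intro x hx; simpa using hx
    | succ k ih =>
      intro x hx
      have := ih _ (haE' x hx)
      have h3 : (a ^ (k + 1))⁻¹ * x * a ^ (k + 1) = (a ^ k)⁻¹ * (a⁻¹ * x * a) * a ^ k := by
        rw [pow_succ']; group
      rw [h3]; exact this
  have h3 : ∀ k : ℕ, ∀ g ∈ E, (g • (a ^ k • α) = a ^ k • α ↔ g • (e ^ k • α) = e ^ k • α) := by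
    intro k
    induction k with
    | zero => intro g hg; simp
    | succ k ih =>
      intro g hg
      have e1 : g • (a ^ (k + 1) • α) = a ^ (k + 1) • α ↔
          (a⁻¹ * g * a) • (a ^ k • α) = a ^ k • α := by
        rw [pow_succ', mul_smul a, mul_smul, mul_smul, inv_smul_eq_iff]
      have e2 : (a⁻¹ * g * a) • (e ^ k • α) = e ^ k • α ↔
          ((e ^ k)⁻¹ * g * e ^ k) • (a • α) = a • α := by
        rw [mul_smul, mul_smul, inv_smul_eq_iff, mul_smul, mul_smul, inv_smul_eq_iff,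
          ← mul_smul a, ← mul_smul (e ^ k), (Commute.pow_right (hcomm : Commute a e) k).eq]
      have e3 : ((e ^ k)⁻¹ * g * e ^ k) • (e • α) = e • α ↔
          g • (e ^ (k + 1) • α) = e ^ (k + 1) • α := by
        rw [mul_smul, mul_smul, inv_smul_eq_iff, ← mul_smul (e ^ k), ← pow_succ]
      rw [e1, ih _ (haE' g hg), e2, h1 _ (E.mul_mem (E.mul_mem (E.inv_mem (E.pow_mem heE _)) hg)
        (E.pow_mem heE _)), e3]
  -- `e ^ n = 1` for `n` the order of `a`
  have h4 : e ^ orderOf a = 1 := by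
    obtain ⟨z, hzE, hz1, hz, hzα⟩ := C3_cau h α
    have h5 := h3 (orderOf a) z hzE
    rw [pow_orderOf_eq_one, one_smul] at h5
    have h6 := h5.1 hzα
    have h7 : α = e ^ orderOf a • α :=
      C3_uniq h hzE hz hz1 ⟨⟨e ^ orderOf a, E.pow_mem heE _⟩, rfl⟩ hzα h6
    obtain ⟨d', hd', hu⟩ := hreg ⟨α, MulAction.mem_orbit_self α⟩ ⟨α, MulAction.mem_orbit_self α⟩
    have h8 := hu (d ^ orderOf a) (by
      apply Subtype.ext
      exact h7.symm)
    have h9 := hu 1 (by simp)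
    have h10 : d ^ orderOf a = 1 := h8.trans h9.symm
    have := congrArg (fun z : (A.subgroupOf E ⊔ Subgroup.zpowers ⟨t, htE⟩ : Subgroup E) =>
      ((z : E) : L)) h10
    simpa using this
  have h5 : e = 1 := by
    rw [← orderOf_eq_one_iff]
    exact Nat.eq_one_of_dvd_coprimes hn (orderOf_dvd_of_pow_eq_one h4)
      (orderOf_dvd_of_pow_eq_one hpow)
  intro g hg
  rw [h1 g hg, h5, one_smul]

/-- such an element centralises `E` -/
theorem C3_cen (hPLL : PLL_stmt) (h6 : P6_stmt) (h : CaseC L Ω A E t ρ) (htE : t ∈ E) {τ : L}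
    (hτA : τ ∈ A) (hτE : τ ∈ E) (hτ : IsInv τ) {a : L}
    (haE : ∀ x ∈ E, a * x * a⁻¹ ∈ E) (haE' : ∀ x ∈ E, a⁻¹ * x * a ∈ E)
    (haA : ∀ b ∈ A, b ∈ E → a * b = b * a) (hat : a * t = t * a)
    (hn : Nat.Coprime (orderOf a) (2 * Nat.card (A ⊓ E : Subgroup L))) :
    ∀ x ∈ E, a * x = x * a := by
  have h1 := C3_pres hPLL h6 h htE hτA hτE hτ haE' haA hat hn
  intro x hx
  have := h.LL.faithful
  rw [← mul_inv_eq_iff_eq_mul]
  apply FaithfulSMul.eq_of_smul_eq_smul (α := Ω)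
  intro α
  obtain ⟨z, hzE, hz1, hz, hzα⟩ := C3_cau h (x • α)
  refine C3_uniq h hzE hz hz1 ?_ ?_ hzα
  · refine ⟨⟨x * (a * x * a⁻¹)⁻¹, E.mul_mem hx (E.inv_mem (haE x hx))⟩, ?_⟩
    show (x * (a * x * a⁻¹)⁻¹) • (a * x * a⁻¹) • α = x • α
    rw [← mul_smul]
    congr 1
    group
  · -- `z` fixes `a x a⁻¹ α`
    have h2 : z • (a • (x • (a⁻¹ • α))) = a • (x • (a⁻¹ • α)) := by
      rw [h1 _ z hzE]
      have h3 : (x⁻¹ * z * x) • (a⁻¹ • α) = a⁻¹ • α := by
        have h4 := h1 (a⁻¹ • α) (x⁻¹ * z * x) (E.mul_mem (E.mul_mem (E.inv_mem hx) hzE) hx)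
        rw [smul_inv_smul] at h4
        rw [← h4, mul_smul, mul_smul, hzα, inv_smul_smul]
      rw [mul_smul, mul_smul, inv_smul_eq_iff] at h3
      exact h3
    rw [mul_smul, mul_smul]
    exact h2

/-- two elements of the same prime order of a cyclic group generate the same subgroup -/
theorem C3_prime {G : Type} [Group G] [Finite G] (hG : IsCyclic G) {p : ℕ} (hp : p.Prime)
    {x y : G} (hx : orderOf x = p) (hy : orderOf y = p) : y ∈ Subgroup.zpowers x := by
  have := Fintype.ofFinite G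
  have h1 := IsCyclic.card_pow_eq_one_le (α := G) hp.pos
  have h2 : (Finset.univ.filter (fun a : G => a ∈ Subgroup.zpowers x)) ⊆
      Finset.univ.filter (fun a : G => a ^ p = 1) := by
    intro a ha
    simp only [Finset.mem_filter, Finset.mem_univ, true_and] at ha ⊢
    obtain ⟨k, rfl⟩ := Subgroup.mem_zpowers_iff.1 ha
    rw [← hx, ← zpow_natCast, ← zpow_mul, mul_comm, zpow_mul, zpow_natCast, pow_orderOf_eq_one,
      one_zpow]
  have h3 : (Finset.univ.filter (fun a : G => a ∈ Subgroup.zpowers x)).card = p := by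
    rw [← Fintype.card_subtype, ← Nat.card_eq_fintype_card]
    exact (Nat.card_zpowers x).trans hx
  have h4 := Finset.eq_of_subset_of_card_le h2 (by rw [h3]; exact h1)
  have h5 : y ∈ Finset.univ.filter (fun a : G => a ^ p = 1) := by
    simp only [Finset.mem_filter, Finset.mem_univ, true_and]
    rw [← hy]; exact pow_orderOf_eq_one y
  rw [← h4] at h5
  simpa using h5

theorem C3_sqrt {x : L} (hx : Odd (orderOf x)) : ∃ k : ℕ, (x ^ 2) ^ k = x := by
  obtain ⟨m, hm⟩ := hx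
  refine ⟨m + 1, ?_⟩
  rw [← pow_mul, show 2 * (m + 1) = orderOf x + 1 by omega, pow_succ, pow_orderOf_eq_one, one_mul]

/-- the structure of `A` in case (c) -/
theorem C3 (hPLL : PLL_stmt) (h6 : P6_stmt) (hAB : AB_stmt) (hC2 : C2_stmt) : C3_stmt := by
  intro L Ω _ _ A E t ρ h
  have := h.LL.finL
  have := h.LL.finΩ
  have hΩ : Nonempty Ω := by
    by_contra h'
    rw [not_nonempty_iff] at h'
    exact h.LL.three (by rw [Nat.card_of_isEmpty]; exact dvd_zero 3)
  obtain ⟨α⟩ := hΩ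
  obtain ⟨h21, htE, h23⟩ := hC2 L Ω A E t ρ h
  obtain ⟨ab1, ab2, ab3, ab4, -, -, -, -, -, ab10⟩ := hAB L A h.LL.cyc
  have hρA : ρ ∈ A := ((ab1 ρ).1 h.mem).1
  -- the involution
  have : Fact (Nat.Prime 2) := ⟨Nat.prime_two⟩
  obtain ⟨τ', hτ'⟩ := exists_prime_orderOf_dvd_card' (G := twoPart A) 2 (by rw [h21])
  set τ : L := (τ' : L) with hτdef
  have hτtwo : τ ∈ twoPart A := τ'.2
  have hτA : τ ∈ A := ((ab2 τ).1 hτtwo).1
  have hτo : orderOf τ = 2 := by rw [hτdef, Subgroup.orderOf_coe]; exact hτ'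
  have hτ : IsInv τ := by
    refine ⟨?_, ?_⟩
    · rw [← pow_two, ← hτo]; exact pow_orderOf_eq_one τ
    · intro h'; rw [h', orderOf_one] at hτo; omega
  have hcomm : ∀ {a b : L}, a ∈ A → b ∈ A → a * b = b * a :=
    fun ha hb => C3_mul_comm h.LL.cyc ha hb
  have hτE : τ ∈ E := h23 τ hτ (hcomm hτA hρA)
  obtain ⟨-, htA, -⟩ := h6 _ _ _ (hPLL _ _ _ h.LL) τ t hτA hτ h.dih
  have htt : t * t = 1 := h.dih.1
  have hti : t⁻¹ = t := inv_eq_of_mul_eq_one_left htt
  have hAE : ∀ a ∈ A, ∀ x ∈ E, a * x * a⁻¹ ∈ E := fun a ha => h.Enorm a (hcomm ha hρA)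
  -- (1)
  have p1 : ∀ a ∈ oddPart A, a ∈ E ↔ t * a * t⁻¹ = a⁻¹ := by
    intro a ha
    obtain ⟨haA, hao⟩ := (ab1 a).1 ha
    constructor
    · intro haE; exact C3_inv h htE α haA haE
    · intro hinv
      have h1 := hAE a haA t htE
      have h2 : a * t * a⁻¹ = a ^ 2 * t := by
        rw [← hinv, hti]
        calc a * t * (t * a * t) = a * (t * t) * a * t := by simp only [mul_assoc]
          _ = a ^ 2 * t := by rw [htt, mul_one, pow_two]
      rw [h2] at h1
      have h3 : a ^ 2 ∈ E := by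
        have := E.mul_mem h1 htE
        rwa [mul_assoc, htt, mul_one] at this
      obtain ⟨k, hk⟩ := C3_sqrt hao
      rw [← hk]
      exact E.pow_mem h3 k
  -- the subgroups `A_+`, `A_-` of `oddPart A`
  set O := oddPart A with hO
  have hOA : O ≤ A := fun a ha => ((ab1 a).1 ha).1
  have hOo : ∀ a ∈ O, Odd (orderOf a) := fun a ha => ((ab1 a).1 ha).2
  have htO : ∀ a ∈ O, t * a * t⁻¹ ∈ O := ab10 O hOA t htA
  let f : O →* O := 
    { toFun := fun a => ⟨(a : L) * (t * a * t⁻¹), O.mul_mem a.2 (htO a a.2)⟩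
      map_one' := by apply Subtype.ext; simp
      map_mul' := by
        intro a b
        apply Subtype.ext
        show (a : L) * b * (t * (a * b) * t⁻¹) = a * (t * a * t⁻¹) * (b * (t * b * t⁻¹))
        have h1 : (t * a * t⁻¹) * (b : L) = b * (t * a * t⁻¹) :=
          hcomm (hOA (htO a a.2)) (hOA b.2)
        calc (a : L) * b * (t * (a * b) * t⁻¹)
            = a * (b * (t * a * t⁻¹)) * (t * b * t⁻¹) := by group
          _ = a * ((t * a * t⁻¹) * b) * (t * b * t⁻¹) := by rw [h1]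
          _ = a * (t * a * t⁻¹) * (b * (t * b * t⁻¹)) := by simp only [mul_assoc] }
  have hf : ∀ a : O, ((f a : O) : L) = (a : L) * (t * a * t⁻¹) := fun a => rfl
  have hker : ∀ a : O, a ∈ f.ker ↔ t * (a : L) * t⁻¹ = (a : L)⁻¹ := by
    intro a
    rw [MonoidHom.mem_ker]
    constructor
    · intro h1
      have h2 : (a : L) * (t * a * t⁻¹) = 1 := by rw [← hf, h1]; rfl
      exact (inv_eq_of_mul_eq_one_right h2).symm
    · intro h1
      apply Subtype.ext
      rw [hf, h1, mul_inv_cancel]; rfl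
  have hran : ∀ a : O, a ∈ f.range ↔ t * (a : L) = a * t := by
    intro a
    constructor
    · rintro ⟨b, rfl⟩
      rw [hf]
      have h1 : (t * b * t⁻¹) * (b : L) = b * (t * b * t⁻¹) :=
        hcomm (hOA (htO b b.2)) (hOA b.2)
      calc t * ((b : L) * (t * b * t⁻¹)) = (t * b * t⁻¹) * (t * t) * b * t⁻¹ := by group
        _ = (t * b * t⁻¹) * b * t := by rw [htt, mul_one, hti]
        _ = _ := by rw [h1]
    · intro h1
      obtain ⟨k, hk⟩ := C3_sqrt (hOo a a.2)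
      refine ⟨a ^ k, ?_⟩
      apply Subtype.ext
      rw [hf]
      have h2 : t * (((a ^ k : O) : L)) * t⁻¹ = ((a ^ k : O) : L) := by
        rw [Subgroup.coe_pow, (Commute.pow_right (h1 : Commute t a) k).eq, mul_inv_cancel_right]
      rw [h2, Subgroup.coe_pow, ← pow_add, ← two_mul, pow_mul]
      exact hk
  have hcardO : Nat.card f.range * Nat.card f.ker = Nat.card O := by
    rw [mul_comm, ← Subgroup.index_ker, Subgroup.card_mul_index]
  have hplus : Nat.card {a : L // a ∈ O ∧ t * a = a * t} = Nat.card f.range := by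
    apply Nat.card_congr
    exact
      { toFun := fun a => ⟨⟨a.1, a.2.1⟩, (hran ⟨a.1, a.2.1⟩).2 a.2.2⟩
        invFun := fun a => ⟨((a : O) : L), (a : O).2, (hran a.1).1 a.2⟩
        left_inv := fun a => rfl
        right_inv := fun a => rfl }
  -- `|A ∩ E| = 2 |A_-|`
  have hcycAE : IsCyclic (A ⊓ E : Subgroup L) := by
    have := h.LL.cyc
    exact isCyclic_of_injective (Subgroup.inclusion (inf_le_left : A ⊓ E ≤ A))
      (Subgroup.inclusion_injective _)
  obtain ⟨ae1, ae2, ae3, -⟩ := hAB L (A ⊓ E) hcycAE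
  have hminus : Nat.card (oddPart (A ⊓ E)) = Nat.card f.ker := by
    apply Nat.card_congr
    exact
      { toFun := fun a => ⟨⟨a.1, (ab1 _).2 ⟨((ae1 _).1 a.2).1.1, ((ae1 _).1 a.2).2⟩⟩,
          (hker _).2 ((p1 _ ((ab1 _).2 ⟨((ae1 _).1 a.2).1.1, ((ae1 _).1 a.2).2⟩)).1
            ((ae1 _).1 a.2).1.2)⟩
        invFun := fun a => ⟨((a : O) : L), (ae1 _).2 ⟨⟨hOA (a : O).2,
          (p1 _ (a : O).2).2 ((hker _).1 a.2)⟩, hOo _ (a : O).2⟩⟩
        left_inv := fun a => rfl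
        right_inv := fun a => rfl }
  have htwoeq : twoPart (A ⊓ E) = twoPart A := by
    apply le_antisymm
    · intro x hx
      exact (ab2 x).2 ⟨((ae2 x).1 hx).1.1, ((ae2 x).1 hx).2⟩
    · intro x hx
      have h1 : twoPart A = Subgroup.zpowers τ := by
        symm
        apply Subgroup.eq_of_le_of_card_ge
        · rw [Subgroup.zpowers_le]; exact hτtwo
        · rw [h21, Nat.card_zpowers, hτo]
      have hxE : x ∈ E := by
        rw [h1] at hx
        exact (Subgroup.zpowers_le.2 hτE) hx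
      exact (ae2 x).2 ⟨⟨((ab2 x).1 hx).1, hxE⟩, ((ab2 x).1 hx).2⟩
  have hAEcard : Nat.card (A ⊓ E : Subgroup L) = Nat.card f.ker * 2 := by
    rw [← ae3, hminus, htwoeq, h21]
  -- coprimality
  have hcop : Nat.Coprime (Nat.card f.range) (Nat.card f.ker) := by
    apply Nat.coprime_of_dvd
    intro p hp hp1 hp2
    have : Fact p.Prime := ⟨hp⟩
    obtain ⟨x, hx⟩ := exists_prime_orderOf_dvd_card' (G := f.range) p hp1
    obtain ⟨y, hy⟩ := exists_prime_orderOf_dvd_card' (G := f.ker) p hp2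
    have hcO : IsCyclic O := by
      have := h.LL.cyc
      exact isCyclic_of_injective (Subgroup.inclusion hOA) (Subgroup.inclusion_injective _)
    have h1 : orderOf (x : O) = p := by rw [Subgroup.orderOf_coe]; exact hx
    have h2 : orderOf (y : O) = p := by rw [Subgroup.orderOf_coe]; exact hy
    have h3 : (y : O) ∈ Subgroup.zpowers (x : O) := C3_prime hcO hp h1 h2
    have h4 : (y : O) ∈ f.range := (Subgroup.zpowers_le.2 x.2) h3
    have h5 := (hran _).1 h4
    have h6 := (hker _).1 y.2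
    rw [h5, mul_inv_cancel_right] at h6
    have h7 : ((y : O) : L) ^ 2 = 1 := by
      rw [pow_two]
      nth_rewrite 1 [h6]
      exact inv_mul_cancel _
    obtain ⟨k, hk⟩ := C3_sqrt (hOo _ (y : O).2)
    rw [h7, one_pow] at hk
    have h8 : (y : O) = 1 := Subtype.ext hk.symm
    rw [h8, orderOf_one] at h2
    exact hp.one_lt.ne h2
  have hodd : Odd (Nat.card f.range) := by
    refine Odd.of_dvd_nat ab4 ?_
    rw [← hcardO]
    exact dvd_mul_right _ _
  have hcop2 : Nat.Coprime (Nat.card f.range) (Nat.card (A ⊓ E : Subgroup L)) := by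
    rw [hAEcard]
    exact Nat.Coprime.mul_right hcop (Nat.coprime_two_right.2 hodd)
  refine ⟨p1, ?_, ?_, ?_⟩
  · intro a ha hta
    have haA := hOA ha
    have hord : orderOf a ∣ Nat.card f.range := by
      have h1 : (⟨a, ha⟩ : O) ∈ f.range := (hran _).2 hta
      have h2 := orderOf_dvd_natCard (⟨⟨a, ha⟩, h1⟩ : f.range)
      rwa [← Subgroup.orderOf_coe, ← Subgroup.orderOf_coe] at h2
    refine C3_cen hPLL h6 h htE hτA hτE hτ (hAE a haA) ?_ (fun b hb _ => hcomm haA hb) hta.symm ?_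
    · intro x hx
      have := hAE a⁻¹ (A.inv_mem haA) x hx
      rwa [inv_inv] at this
    · apply Nat.Coprime.coprime_dvd_left hord
      exact Nat.Coprime.mul_right (Nat.coprime_two_right.2 hodd) hcop2
  · rw [hplus]; exact hcop2
  · rw [hplus, hAEcard, ← ab3, h21, ← hcardO, mul_assoc]

end

end Pool.Agent.helper53.AU
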