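import Pool.Agent.helper87.AU.SpecQ2

/-!
# QE5: the ramification index is the order of the stabiliser
-/

namespace Pool.Agent.helper53.AU

open scoped Classical IntermediateField
open IntermediateField (fixedField)

noncomputable section

variable {k F : Type} [Field k] [Field F] [Algebra k F]

/-- an element of nonzero order is transcendental -/
theorem QE5_trans [IsAlgClosed k] (P : Place k F) {x : F} (h : P.ord x ≠ 0) :
    Transcendental k x := by
  intro hx
  have hint : IsIntegral k x := hx.isIntegral
  have h1 := IsAlgClosed.degree_eq_one_of_irreducible k (minpoly.irreducible hint)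
  obtain ⟨c, hc⟩ := minpoly.mem_range_of_degree_eq_one k x h1
  apply h
  rw [← hc]
  by_cases hc0 : c = 0
  · rw [hc0, map_zero, P.ord_zero]
  · exact P.ord_const c hc0

/-- the tower law for `k(x) ⊆ E ⊆ F`, `x ∈ E` -/
theorem QE5_tower (E : IntermediateField k F) (x : E) :
    degx k (x : F) = degx k x * Module.finrank E F := by
  unfold degx
  set A : IntermediateField k E := k⟮x⟯ with hA
  have hB : (k⟮(x : F)⟯ : IntermediateField k F) = A.map E.val := by
    rw [hA, IntermediateField.adjoin_map, Set.image_singleton]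
    rfl
  have h1 : Module.finrank (A.map E.val) F = Module.finrank A F := by
    symm
    refine Algebra.finrank_eq_of_equiv_equiv (A.equivMap E.val).toRingEquiv (RingEquiv.refl F) ?_
    ext a
    rfl
  rw [hB, h1, Module.finrank_mul_finrank]

theorem QE5 (hE1 : QE1_stmt) (hE2 : QE2_stmt) (hE4 : QE4_stmt) (hR5 : QR5_stmt)
    (hZ3 : QZ3_stmt) : QE5_stmt := by
  intro k F _ _ _ _ hF H hH P Q e hPQ
  obtain ⟨hFE, hfd, hcard⟩ := hE1 k F hF H hH
  obtain ⟨C, hC⟩ := hR5 k (fixedField H) hFE Q
  obtain ⟨x, hxreg, hx0, hxord⟩ := hC (C + 1) (by omega)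
  have hxt : Transcendental k x := QE5_trans Q (by rw [hxord]; omega)
  have hxtF : Transcendental k (x : F) := QE5_trans P (by
    rw [hPQ.2 x, hxord]
    have := hPQ.1
    have h2 : ((C + 1 : ℕ) : ℤ) ≠ 0 := by omega
    have h3 : (e : ℤ) ≠ 0 := by omega
    exact mul_ne_zero h3 (neg_ne_zero.2 h2))
  -- degrees
  have hdE : (degx k x : ℤ) = C + 1 := by
    rw [← (hZ3 k _ hFE x hxt).2, finsum_eq_single _ Q]
    · rw [hxord]; push_cast; omega
    · intro Q' hQ'
      have := (hxreg Q' hQ').le hx0
      omega
  have hdF := (hZ3 k F hF (x : F) hxtF).2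
  rw [QE5_tower, hcard] at hdF
  -- the places with a pole
  have horb : (MulAction.orbit H P).Finite := by
    have : Finite H := hH
    exact Set.finite_range _
  have hfun : ∀ P' : Place k F, max (-P'.ord (x : F)) 0 =
      if P' ∈ MulAction.orbit H P then (e : ℤ) * (C + 1) else 0 := by
    intro P'
    split_ifs with h
    · obtain ⟨s, rfl⟩ := h
      have h1 := ((hE4 k F hF H hH P P Q e hPQ).2 s s.2).2 x
      have h2 : ((s • P : Place k F)).ord (x : F) = e * Q.ord x := h1
      show max (-((s • P : Place k F)).ord (x : F)) 0 = _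
      rw [h2, hxord]
      have : (0 : ℤ) ≤ e * (C + 1) := by positivity
      push_cast
      rw [mul_neg, neg_neg, max_eq_left this]
    · obtain ⟨⟨Q', e', hQ'⟩, -⟩ := hE2 k F hF H hH P'
      have hne : Q' ≠ Q := by
        rintro rfl
        obtain ⟨s, hs, hs'⟩ := ((hE4 k F hF H hH P P' Q' e hPQ).1).1 ⟨e', hQ'⟩
        exact h ⟨⟨s, hs⟩, hs'.symm⟩
      have h1 := (hxreg Q' hne).le hx0
      rw [hQ'.2 x]
      have : (0 : ℤ) ≤ e' * Q'.ord x := by positivity
      omega
  have hsum : ∑ᶠ P' : Place k F, max (-P'.ord (x : F)) 0 =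
      (MulAction.orbit H P).ncard * ((e : ℤ) * (C + 1)) := by
    rw [finsum_congr hfun, finsum_eq_sum_of_support_subset _ (s := horb.toFinset)]
    · rw [Finset.sum_congr rfl (g := fun _ => (e : ℤ) * (C + 1))]
      · rw [Finset.sum_const, nsmul_eq_mul, Set.ncard_eq_toFinset_card _ horb]
      · intro P' hP'
        rw [if_pos ((Set.Finite.mem_toFinset _).1 hP')]
    · intro P' hP'
      rw [Function.mem_support] at hP'
      rw [Set.Finite.coe_toFinset]
      by_contra h
      exact hP' (if_neg h)
  rw [hsum] at hdF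
  push_cast at hdF
  rw [hdE] at hdF
  have h1 : ((MulAction.orbit H P).ncard : ℤ) * e = Nat.card H := by
    have h2 : (C : ℤ) + 1 ≠ 0 := by positivity
    apply mul_right_cancel₀ h2
    linarith
  have h2 : (MulAction.orbit H P).ncard * e = Nat.card H := by exact_mod_cast h1
  have h3 : (MulAction.orbit H P).ncard * Nat.card (MulAction.stabilizer H P) = Nat.card H := by
    rw [← MulAction.index_stabilizer, mul_comm, Subgroup.card_mul_index]
  have h4 : 0 < (MulAction.orbit H P).ncard := by
    rw [Set.ncard_pos horb]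
    exact MulAction.nonempty_orbit P
  have h5 : e = Nat.card (MulAction.stabilizer H P) :=
    Nat.eq_of_mul_eq_mul_left h4 (h2.trans h3.symm)
  rw [h5]
  rfl

end

end Pool.Agent.helper53.AU
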