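import Pool.Agent.helper87.AU.SpecQ2

/-!
# QG: the geometric part
-/

namespace Pool.Agent.helper53.AU

open scoped Classical IntermediateField
open IntermediateField (fixedField)




noncomputable section

variable {k F : Type} [Field k] [Field F] [Algebra k F]

/-- the places with nontrivial stabiliser -/
@[ext] structure QG_X (G : Subgroup (F ≃ₐ[k] F)) : Type where
  /-- the place -/
  pl : Place k F
  prop : ∃ s ∈ G, s ≠ 1 ∧ s • pl = pl

theorem QG_conj {a s : F ≃ₐ[k] F} {P : Place k F} : (a * s * a⁻¹) • (a • P) = a • P ↔ s • P = P := by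
  rw [mul_smul, mul_smul, inv_smul_smul]
  exact smul_left_cancel_iff a

instance QG_act (G : Subgroup (F ≃ₐ[k] F)) : MulAction G (QG_X G) where
  smul a x := ⟨(a : F ≃ₐ[k] F) • x.pl, by
    obtain ⟨s, hs, hs1, hx⟩ := x.prop
    refine ⟨a * s * (a : F ≃ₐ[k] F)⁻¹, G.mul_mem (G.mul_mem a.2 hs) (G.inv_mem a.2), ?_,
      QG_conj.2 hx⟩
    intro h
    apply hs1
    rwa [mul_inv_eq_one, mul_eq_left] at h⟩
  one_smul x := QG_X.ext (one_smul _ x.pl)
  mul_smul a b x := QG_X.ext (mul_smul (a : F ≃ₐ[k] F) (b : F ≃ₐ[k] F) x.pl)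

theorem QG_smul (G : Subgroup (F ≃ₐ[k] F)) (a : G) (x : QG_X G) :
    (a • x).pl = (a : F ≃ₐ[k] F) • x.pl := rfl

theorem QG_smul_eq (G : Subgroup (F ≃ₐ[k] F)) (a : G) (x : QG_X G) :
    a • x = x ↔ (a : F ≃ₐ[k] F) • x.pl = x.pl := by
  rw [QG_X.ext_iff, QG_smul]

theorem QG_fin (h11 : QF11_stmt) [IsAlgClosed k] (hF : IsFF k F) (G : Subgroup (F ≃ₐ[k] F))
    [Finite G] : Finite (QG_X G) := by
  have h : {P : Place k F | ∃ s ∈ G, s ≠ 1 ∧ s • P = P}.Finite := by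
    have h1 : {P : Place k F | ∃ s ∈ G, s ≠ 1 ∧ s • P = P} =
        ⋃ s : {s : G // s ≠ 1}, {P : Place k F | ((s : G) : F ≃ₐ[k] F) • P = P} := by
      ext P
      simp only [Set.mem_ofPred_eq, Set.mem_iUnion]
      constructor
      · rintro ⟨s, hs, hs1, hP⟩
        exact ⟨⟨⟨s, hs⟩, fun h => hs1 (congrArg Subtype.val h)⟩, hP⟩
      · rintro ⟨s, hP⟩
        exact ⟨s.1.1, s.1.2, fun h => s.2 (Subtype.ext h), hP⟩
    rw [h1]
    apply Set.finite_iUnion
    intro s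
    exact h11 k F hF _ (fun h => s.2 (Subtype.ext h))
  have := h.to_subtype
  exact Finite.of_injective (fun x : QG_X G =>
    (⟨x.pl, x.prop⟩ : {P : Place k F | ∃ s ∈ G, s ≠ 1 ∧ s • P = P}))
    (fun x y hxy => QG_X.ext (congrArg Subtype.val hxy))

/-- the ramification jump -/
def QG_i (G : Subgroup (F ≃ₐ[k] F)) (x : QG_X G) (s : G) : ℕ :=
  if s ≠ 1 ∧ s • x = x then x.pl.jump (s : F ≃ₐ[k] F) else 0

theorem QG_i_eq {G : Subgroup (F ≃ₐ[k] F)} {x : QG_X G} {s : G} (h1 : s ≠ 1) (h2 : s • x = x) :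
    QG_i G x s = x.pl.jump (s : F ≃ₐ[k] F) := if_pos ⟨h1, h2⟩

/-- the character on the cotangent line -/
def QG_θ (h2 : QF2_stmt) (h3 : QF3_stmt) [IsAlgClosed k] (hF : IsFF k F)
    (G : Subgroup (F ≃ₐ[k] F)) (x : QG_X G) : MulAction.stabilizer G x →* kˣ :=
  MonoidHom.mk' (fun s => Units.mk0 (x.pl.theta ((s : G) : F ≃ₐ[k] F))
    ((h2 k F hF x.pl _ ((QG_smul_eq G s x).1 s.2)).1)) (by
      intro s s'
      apply Units.ext
      exact (h3 k F hF x.pl).1 _ _ ((QG_smul_eq G s x).1 s.2) ((QG_smul_eq G s' x).1 s'.2))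

theorem QG_θ_val (h2 : QF2_stmt) (h3 : QF3_stmt) [IsAlgClosed k] (hF : IsFF k F)
    (G : Subgroup (F ≃ₐ[k] F)) (x : QG_X G) (s : MulAction.stabilizer G x) :
    ((QG_θ h2 h3 hF G x s : kˣ) : k) = x.pl.theta ((s : G) : F ≃ₐ[k] F) := rfl

theorem QG_ne {G : Subgroup (F ≃ₐ[k] F)} {s : G} (h : s ≠ 1) : (s : F ≃ₐ[k] F) ≠ 1 :=
  fun h' => h (Subtype.ext h')

theorem QG_pow {u : kˣ} {n : ℕ} : u ^ n = 1 ↔ (u : k) ^ n = 1 := by
  rw [← Units.val_pow_eq_pow_val, Units.val_eq_one]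

theorem QG_ker (h2 : QF2_stmt) (h3 : QF3_stmt) [IsAlgClosed k] (hF : IsFF k F)
    (G : Subgroup (F ≃ₐ[k] F)) (x : QG_X G) (s : G) :
    s ∈ ((QG_θ h2 h3 hF G x).ker).map (MulAction.stabilizer G x).subtype ↔
      (s : F ≃ₐ[k] F) • x.pl = x.pl ∧ x.pl.theta (s : F ≃ₐ[k] F) = 1 := by
  rw [Subgroup.mem_map]
  constructor
  · rintro ⟨c, hc, rfl⟩
    refine ⟨(QG_smul_eq G c x).1 c.2, ?_⟩
    have := congrArg (fun u : kˣ => (u : k)) (MonoidHom.mem_ker.1 hc)
    exact this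
  · rintro ⟨h, h'⟩
    refine ⟨⟨s, (QG_smul_eq G s x).2 h⟩, ?_, rfl⟩
    rw [MonoidHom.mem_ker]
    exact Units.ext h'

theorem QG_herb (h2 : QF2_stmt) (h3 : QF3_stmt) (h5 : QH5_stmt) [IsAlgClosed k] [CharP k 3]
    (hF : IsFF k F) (G : Subgroup (F ≃ₐ[k] F)) [Fintype G] (x : QG_X G) (Q : Subgroup G)
    (hQ : Q ≤ ((QG_θ h2 h3 hF G x).ker).map (MulAction.stabilizer G x).subtype)
    (hn : ∀ c ∈ MulAction.stabilizer G x, ∀ q ∈ Q, c * q * c⁻¹ ∈ Q)
    (hc : Nat.card (((QG_θ h2 h3 hF G x).ker).map (MulAction.stabilizer G x).subtype) =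
      3 * Nat.card Q) :
    ∃ j : ℕ, 1 ≤ j ∧
      (∑ s ∈ Finset.univ.filter (fun s : G =>
        s ∈ ((QG_θ h2 h3 hF G x).ker).map (MulAction.stabilizer G x).subtype ∧ s ∉ Q),
          QG_i G x s) = 2 * Nat.card Q * j ∧
      ∀ c : MulAction.stabilizer G x, ((QG_θ h2 h3 hF G x c) ^ (Nat.card Q * j) = 1 ↔
        ∀ s ∈ ((QG_θ h2 h3 hF G x).ker).map (MulAction.stabilizer G x).subtype,
          (c : G) * s * (c : G)⁻¹ * s⁻¹ ∈ Q) := by
  set W := ((QG_θ h2 h3 hF G x).ker).map (MulAction.stabilizer G x).subtype with hW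
  have hker := QG_ker h2 h3 hF G x
  have hmap : ∀ (K : Subgroup G) (s : G), (s : F ≃ₐ[k] F) ∈ K.map G.subtype ↔ s ∈ K := by
    intro K s
    constructor
    · rintro ⟨s', hs', h⟩
      have : s' = s := Subtype.ext h
      exact this ▸ hs'
    · intro h
      exact ⟨s, h, rfl⟩
  have hcard : ∀ K : Subgroup G, Nat.card (K.map G.subtype) = Nat.card K := fun K =>
    Nat.card_congr (K.equivMapOfInjective G.subtype G.subtype_injective).toEquiv.symm
  obtain ⟨j, hj1, hj2, hj3⟩ := h5 k F hF G (W.map G.subtype) (Q.map G.subtype) inferInstance x.pl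
    (by
      intro s
      constructor
      · rintro ⟨s', hs', rfl⟩
        exact ⟨s'.2, (hker s').1 hs'⟩
      · rintro ⟨hs, h'⟩
        have h1 : (⟨s, hs⟩ : G) ∈ W := (hker ⟨s, hs⟩).2 h'
        exact Subgroup.mem_map_of_mem G.subtype h1)
    (Subgroup.map_mono hQ)
    (by
      rintro c hc hcP _ ⟨q, hq, rfl⟩
      obtain ⟨c', rfl⟩ : ∃ c' : G, G.subtype c' = c := ⟨⟨c, hc⟩, rfl⟩
      have h1 : c' ∈ MulAction.stabilizer G x :=
        MulAction.mem_stabilizer_iff.2 ((QG_smul_eq G c' x).2 hcP)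
      have h2 := Subgroup.mem_map_of_mem G.subtype (hn c' h1 q hq)
      rw [map_mul, map_mul, map_inv] at h2
      exact h2)
    (by rw [hcard, hcard]; exact hc)
  rw [hcard] at hj2
  refine ⟨j, hj1, ?_, ?_⟩
  · rw [← hj2]
    have e1 : (∑ᶠ s : W.map G.subtype, if (s : F ≃ₐ[k] F) ∉ Q.map G.subtype then
        x.pl.jump (s : F ≃ₐ[k] F) else 0) =
        ∑ᶠ s : W, if (s : G) ∉ Q then x.pl.jump ((s : G) : F ≃ₐ[k] F) else 0 := by
      symm
      apply finsum_eq_of_bijective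
        (W.equivMapOfInjective G.subtype G.subtype_injective).toEquiv (Equiv.bijective _)
      intro s
      have h1 : (((W.equivMapOfInjective G.subtype G.subtype_injective).toEquiv s :
        W.map G.subtype) : F ≃ₐ[k] F) = ((s : G) : F ≃ₐ[k] F) := rfl
      rw [h1]
      by_cases h : (s : G) ∈ Q
      · rw [if_neg (not_not.2 h), if_neg (not_not.2 ((hmap Q s).2 h))]
      · rw [if_pos h, if_pos (fun h' => h ((hmap Q s).1 h'))]
    have e2 : ∑ s ∈ Finset.univ.filter (fun s : G => s ∈ W),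
        (if s ∉ Q then x.pl.jump (s : F ≃ₐ[k] F) else 0) =
        ∑ s : W, if (s : G) ∉ Q then x.pl.jump ((s : G) : F ≃ₐ[k] F) else 0 :=
      Finset.sum_subtype _ (fun s => by simp) _
    rw [e1, finsum_eq_sum_of_fintype, ← e2, ← Finset.filter_filter, Finset.sum_filter]
    apply Finset.sum_congr rfl
    intro s hs
    rw [Finset.mem_filter] at hs
    by_cases h : s ∈ Q
    · rw [if_neg (not_not.2 h), if_neg (not_not.2 h)]
    · rw [if_pos h, if_pos h]
      apply QG_i_eq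
      · rintro rfl
        exact h Q.one_mem
      · exact (QG_smul_eq G s x).2 ((hker s).1 hs.2).1
  · intro c
    rw [QG_pow, QG_θ_val, ← hcard Q, hj3 _ (c : G).2 ((QG_smul_eq G c x).1 c.2)]
    have e : ∀ s : G, (((c : G) * s * (c : G)⁻¹ * s⁻¹ : G) : F ≃ₐ[k] F) =
        ((c : G) : F ≃ₐ[k] F) * (s : F ≃ₐ[k] F) * ((c : G) : F ≃ₐ[k] F)⁻¹ *
          (s : F ≃ₐ[k] F)⁻¹ := fun s => by
      rw [Subgroup.coe_mul, Subgroup.coe_mul, Subgroup.coe_mul, Subgroup.coe_inv,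
        Subgroup.coe_inv]
    constructor
    · intro h s hs
      have h' := h (s : F ≃ₐ[k] F) ⟨s, hs, rfl⟩
      rw [← e] at h'
      exact (hmap Q _).1 h'
    · rintro h _ ⟨s, hs, rfl⟩
      have h' := (hmap Q _).2 (h s hs)
      rw [e] at h'
      exact h'

theorem QG_map (G : Subgroup (F ≃ₐ[k] F)) (H : Subgroup G) {M : Type} [AddCommMonoid M]
    (f : (F ≃ₐ[k] F) → M) :
    ∑ᶠ s : H.map G.subtype, f (s : F ≃ₐ[k] F) = ∑ᶠ s : H, f ((s : G) : F ≃ₐ[k] F) := by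
  symm
  apply finsum_eq_of_bijective
    (H.equivMapOfInjective G.subtype G.subtype_injective).toEquiv (Equiv.bijective _)
  intro s
  rfl

theorem QG_RH (h4 : QH4_stmt) [IsAlgClosed k] (hF : IsFF k F) {g : ℕ} (hg : IsGenus k F g)
    (G : Subgroup (F ≃ₐ[k] F)) [Fintype G] [Fintype (QG_X G)] (H : Subgroup G) :
    ∃ γ : ℕ, 2 * (g : ℤ) - 2 = (Nat.card H : ℤ) * (2 * (γ : ℤ) - 2) +
      ∑ x : QG_X G, ∑ s ∈ Finset.univ.filter (fun s : G => s ∈ H ∧ s ≠ 1 ∧ s • x = x),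
        ((QG_i G x s : ℤ) + 1) := by
  have hfin : Finite (H.map G.subtype) :=
    Finite.of_equiv H (H.equivMapOfInjective G.subtype G.subtype_injective).toEquiv
  obtain ⟨γ, hγ⟩ := h4 k F hF g hg (H.map G.subtype) hfin
  refine ⟨γ, ?_⟩
  rw [hγ, Nat.card_congr (H.equivMapOfInjective G.subtype G.subtype_injective).toEquiv.symm]
  congr 1
  have e1 : ∀ P : Place k F, (∑ᶠ s : H.map G.subtype,
      if (s : F ≃ₐ[k] F) ≠ 1 ∧ (s : F ≃ₐ[k] F) • P = P then ((P.jump (s : F ≃ₐ[k] F) : ℤ) + 1)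
        else 0) =
      ∑ s ∈ Finset.univ.filter (fun s : G => s ∈ H),
        if (s : F ≃ₐ[k] F) ≠ 1 ∧ (s : F ≃ₐ[k] F) • P = P then
          ((P.jump (s : F ≃ₐ[k] F) : ℤ) + 1) else 0 := by
    intro P
    rw [QG_map G H (fun s => if s ≠ 1 ∧ s • P = P then ((P.jump s : ℤ) + 1) else 0),
      finsum_eq_sum_of_fintype]
    exact (Finset.sum_subtype (Finset.univ.filter (fun s : G => s ∈ H)) (fun s => by simp)
      (fun s : G => if (s : F ≃ₐ[k] F) ≠ 1 ∧ (s : F ≃ₐ[k] F) • P = P then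
          ((P.jump (s : F ≃ₐ[k] F) : ℤ) + 1) else 0)).symm
  have e2 : ∀ P : Place k F, (∑ᶠ s : H.map G.subtype,
      if (s : F ≃ₐ[k] F) ≠ 1 ∧ (s : F ≃ₐ[k] F) • P = P then ((P.jump (s : F ≃ₐ[k] F) : ℤ) + 1)
        else 0) = ∑ᶠ (_ : P ∈ Set.range (QG_X.pl : QG_X G → Place k F)),
      ∑ s ∈ Finset.univ.filter (fun s : G => s ∈ H),
        if (s : F ≃ₐ[k] F) ≠ 1 ∧ (s : F ≃ₐ[k] F) • P = P then
          ((P.jump (s : F ≃ₐ[k] F) : ℤ) + 1) else 0 := by
    intro P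
    rw [e1]
    by_cases h : P ∈ Set.range (QG_X.pl : QG_X G → Place k F)
    · rw [finsum_eq_if, if_pos h]
    · rw [finsum_eq_if, if_neg h]
      apply Finset.sum_eq_zero
      intro s _
      apply if_neg
      rintro ⟨hs1, hs2⟩
      exact h ⟨⟨P, (s : F ≃ₐ[k] F), s.2, hs1, hs2⟩, rfl⟩
  rw [finsum_congr e2, finsum_mem_range (fun x y h => QG_X.ext h), finsum_eq_sum_of_fintype]
  apply Finset.sum_congr rfl
  intro x _
  rw [← Finset.filter_filter, Finset.sum_filter (fun s : G => s ≠ 1 ∧ s • x = x)]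
  apply Finset.sum_congr rfl
  intro s _
  by_cases h : s ≠ 1 ∧ s • x = x
  · rw [if_pos h, if_pos ⟨QG_ne h.1, (QG_smul_eq G s x).1 h.2⟩, QG_i_eq h.1 h.2]
  · rw [if_neg h, if_neg]
    rintro ⟨h1, h2⟩
    exact h ⟨fun h' => h1 (by rw [h']; rfl), (QG_smul_eq G s x).2 h2⟩

theorem QG (h2 : QF2_stmt) (h3 : QF3_stmt) (h6 : QF6_stmt) (h7 : QF7_stmt) (h10 : QF10_stmt)
    (h11 : QF11_stmt) (hH4 : QH4_stmt) (hH5 : QH5_stmt) : QG_stmt := by
  intro k F _ _ _ _ _ g hF hg _ G _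
  have hX : Finite (QG_X G) := QG_fin h11 hF G
  have fX : Fintype (QG_X G) := Fintype.ofFinite _
  refine ⟨QG_X G, QG_act G, fX, ⟨?_⟩⟩
  have hcj : ∀ (a s : G) (x : QG_X G), (a * s * a⁻¹) • (a • x) = a • x ↔ s • x = x := by
    intro a s x
    rw [mul_smul, mul_smul, inv_smul_smul]
    exact smul_left_cancel_iff a
  have hcj1 : ∀ a s : G, a * s * a⁻¹ = 1 ↔ s = 1 := by
    intro a s
    rw [mul_inv_eq_one, mul_eq_left]
  have hpos : ∀ (x : QG_X G) (s : G), 1 ≤ QG_i G x s → s ≠ 1 ∧ s • x = x := by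
    intro x s h
    by_contra h'
    rw [QG_i, if_neg h'] at h
    omega
  exact
    { i := QG_i G
      θ := QG_θ h2 h3 hF G
      conj := by
        intro a s x
        by_cases h : s ≠ 1 ∧ s • x = x
        · rw [QG_i_eq h.1 h.2, QG_i_eq (fun h' => h.1 ((hcj1 a s).1 h')) ((hcj a s x).2 h.2)]
          exact ((h3 k F hF x.pl).2.1 (a : F ≃ₐ[k] F) (s : F ≃ₐ[k] F)
            ((QG_smul_eq G s x).1 h.2)).2
        · rw [QG_i, QG_i, if_neg h, if_neg]
          rintro ⟨h1, h2'⟩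
          exact h ⟨fun h' => h1 ((hcj1 a s).2 h'), (hcj a s x).1 h2'⟩
      inv := by
        intro x s hs
        by_cases h1 : s = 1
        · rw [h1, inv_one]
        · have hs' : s⁻¹ • x = x := by rw [inv_smul_eq_iff, hs]
          rw [QG_i_eq h1 hs, QG_i_eq (inv_ne_one.2 h1) hs']
          exact (h3 k F hF x.pl).2.2.1 _ ((QG_smul_eq G s x).1 hs)
      ultra := by
        intro x s t hs ht hs1 ht1 hst
        have hst' : (s * t) • x = x := by rw [mul_smul, ht, hs]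
        rw [QG_i_eq hs1 hs, QG_i_eq ht1 ht, QG_i_eq hst hst']
        exact (h3 k F hF x.pl).2.2.2 _ _ ((QG_smul_eq G s x).1 hs) ((QG_smul_eq G t x).1 ht)
          (QG_ne hs1) (QG_ne ht1) (QG_ne hst)
      tame := by
        intro x s
        have h := (h2 k F hF x.pl _ ((QG_smul_eq G s x).1 s.2)).2.2.2
        rw [← Units.val_eq_one, QG_θ_val, h]
        by_cases h1 : (s : G) = 1
        · have h1' : ((s : G) : F ≃ₐ[k] F) = 1 := by rw [h1]; rfl
          exact ⟨fun _ => Or.inl h1, fun _ => Or.inl h1'⟩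
        · rw [QG_i_eq h1 s.2]
          constructor
          · rintro (h' | h')
            · exact absurd h' (QG_ne h1)
            · exact Or.inr h'
          · rintro (h' | h')
            · exact absurd h' h1
            · exact Or.inr h'
      wild := by
        intro x s hs hs1 h1
        rw [QG_i_eq hs1 hs] at h1
        obtain ⟨n, hn⟩ := (h7 k F hF x.pl (s : F ≃ₐ[k] F) ((QG_smul_eq G s x).1 hs)
          (QG_ne hs1) h1).2 ⟨orderOf s, orderOf_pos s, by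
            rw [← Subgroup.coe_pow, pow_orderOf_eq_one]; rfl⟩
        exact ⟨n, Subtype.ext (by rw [Subgroup.coe_pow]; exact hn)⟩
      lead := by
        intro x c s hs hs1 h1
        have hcx : ((c : G) : F ≃ₐ[k] F) • x.pl = x.pl := (QG_smul_eq G c x).1 c.2
        have hsx := (QG_smul_eq G s x).1 hs
        rw [QG_i_eq hs1 hs] at h1 ⊢
        have h := h6 k F hF x.pl ((c : G) : F ≃ₐ[k] F) (s : F ≃ₐ[k] F) hcx hsx (QG_ne hs1) h1
        have e : (((c : G) * s * (c : G)⁻¹ * s⁻¹ : G) : F ≃ₐ[k] F) =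
            ((c : G) : F ≃ₐ[k] F) * (s : F ≃ₐ[k] F) * ((c : G) : F ≃ₐ[k] F)⁻¹ *
              (s : F ≃ₐ[k] F)⁻¹ := by
          rw [Subgroup.coe_mul, Subgroup.coe_mul, Subgroup.coe_mul, Subgroup.coe_inv,
            Subgroup.coe_inv]
        rw [← e] at h
        rw [QG_pow, QG_θ_val, h]
        by_cases hz : ((c : G) * s * (c : G)⁻¹ * s⁻¹ : G) = 1
        · refine ⟨fun _ => Or.inl hz, fun _ => Or.inl ?_⟩
          rw [hz]; rfl
        · have hzx : ((c : G) * s * (c : G)⁻¹ * s⁻¹ : G) • x = x := by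
            have hc1 : (c : G) • x = x := c.2
            have hc2 : (c : G)⁻¹ • x = x := by rw [inv_smul_eq_iff, hc1]
            have hs2 : s⁻¹ • x = x := by rw [inv_smul_eq_iff, hs]
            rw [mul_smul, mul_smul, mul_smul, hs2, hc2, hs, hc1]
          rw [QG_i_eq hz hzx]
          constructor
          · rintro (h' | h')
            · exact absurd h' (QG_ne hz)
            · exact Or.inr h'
          · rintro (h' | h')
            · exact absurd h' hz
            · exact Or.inr h'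
      θconj := by
        intro a x c h
        apply Units.ext
        rw [QG_θ_val, QG_θ_val]
        have h' := ((h3 k F hF x.pl).2.1 (a : F ≃ₐ[k] F) ((c : G) : F ≃ₐ[k] F)
            ((QG_smul_eq G c x).1 c.2)).1
        rw [← h', QG_smul, Subgroup.coe_mul, Subgroup.coe_mul, Subgroup.coe_inv]
      cong3 := by
        intro x s t hs ht hs1 ht1 h1 h1'
        rw [QG_i_eq hs1 hs] at h1 ⊢
        rw [QG_i_eq ht1 ht] at h1' ⊢
        exact (h10 k F hF G inferInstance x.pl _ _ s.2 t.2 ((QG_smul_eq G s x).1 hs)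
          ((QG_smul_eq G t x).1 ht) (QG_ne hs1) (QG_ne ht1) h1 h1').1
      prime3 := by
        intro x s hs hs1 h1
        rw [QG_i_eq hs1 hs] at h1 ⊢
        exact (h10 k F hF G inferInstance x.pl _ _ s.2 s.2 ((QG_smul_eq G s x).1 hs)
          ((QG_smul_eq G s x).1 hs) (QG_ne hs1) (QG_ne hs1) h1 h1).2
      herbrand := fun x Q hQ hn hc => QG_herb h2 h3 hH5 hF G x Q hQ hn hc
      RH := by
        intro H
        obtain ⟨γ, hγ⟩ := QG_RH hH4 hF hg G H
        refine ⟨γ, hγ.trans ?_⟩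
        congr 1
        apply Finset.sum_congr rfl
        intro x _
        apply Finset.sum_congr _ (fun _ _ => rfl)
        ext s
        simp only [Finset.mem_filter] }

end

end Pool.Agent.helper53.AU
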