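import Pool.Agent.helper87.AU.SpecQ1

/-!
# QK4: a derivation is bounded on the valuation ring
-/

namespace Pool.Agent.helper53.AU

open scoped Classical IntermediateField
open Polynomial (aeval)

noncomputable section

variable {k F : Type} [Field k] [Field F] [Algebra k F]

/-- a bound for finitely many elements -/
theorem QK4_bd (P : Place k F) {ι : Type} [Fintype ι] (f : ι → F) :
    ∃ N : ℕ, ∀ i, P.Ge (-(N : ℤ)) (f i) := by
  refine ⟨∑ i, (P.ord (f i)).natAbs, fun i => Or.inr ?_⟩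
  have h := Finset.single_le_sum (f := fun i => (P.ord (f i)).natAbs) (fun j _ => Nat.zero_le _)
    (Finset.mem_univ i)
  have h1 : (P.ord (f i)).natAbs ≤ ∑ i, (P.ord (f i)).natAbs := h
  omega

/-- there is a place different from `P` -/
theorem QK4_place (hL0 : QL0_stmt) (hZ3 : QZ3_stmt) [IsAlgClosed k] (hF : IsFF k F)
    (P : Place k F) : ∃ P₀ : Place k F, P₀ ≠ P := by
  by_contra hno
  push Not at hno
  obtain ⟨z, hz, hzf⟩ := hF
  have hF' : IsFF k F := ⟨z, hz, hzf⟩
  have key : ∀ c : k, 0 < P.ord (z - algebraMap k F c) := by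
    intro c
    have hzc : Transcendental k (z - algebraMap k F c) := by
      intro h
      apply hz
      have := h.add (isAlgebraic_algebraMap c)
      simpa using this
    have h1 := (hZ3 k F hF' _ hzc).1
    have hfin := hL0 k F hF' _ hzc
    have h2 : 0 < degx k (z - algebraMap k F c) := Module.finrank_pos
    by_contra h3
    push Not at h3
    have h4 : ∀ Q : Place k F, max (Q.ord (z - algebraMap k F c)) 0 = 0 := by
      intro Q
      rw [hno Q]
      exact max_eq_right h3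
    rw [finsum_congr h4, finsum_zero] at h1
    omega
  have h0 := key 0
  have h1 := key 1
  rw [map_zero, sub_zero] at h0
  rw [map_one] at h1
  have h2 : P.Ge 1 (1 : F) := by
    have h3 : P.Ge 1 z := Or.inr (by omega)
    have h4 : P.Ge 1 (z - 1) := Or.inr (by omega)
    have := h3.sub h4
    simpa using this
  have h3 := h2.le one_ne_zero
  rw [P.ord_one] at h3
  omega

theorem QK4 (hL0 : QL0_stmt) (hZ3 : QZ3_stmt) (hV4 : QV4_stmt) (hR4 : QR4_stmt) (hR5 : QR5_stmt)
    (hA1 : QA1_stmt) : QK4_stmt := by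
  intro k F _ _ _ _ hF D P
  obtain ⟨P₀, hP₀⟩ := QK4_place hL0 hZ3 hF P
  obtain ⟨C, hC⟩ := hR5 k F hF P₀
  obtain ⟨x, hxreg, hx0, hxord⟩ := hC (C + 1) (by omega)
  obtain ⟨u, μ, h⟩ := hA1 k F hF P₀ x (C + 1) (by omega) hxreg hxord
  obtain ⟨N, hN⟩ := QK4_bd P (fun i : Option (Fin (C + 1)) => i.elim (D x) (fun j => D (u j)))
  have hNx : P.Ge (-(N : ℤ)) (D x) := hN none
  have hNu : ∀ i, P.Ge (-(N : ℤ)) (D (u i)) := fun i => hN (some i)
  have hreg : ∀ f ∈ Reg P₀, P.Ge 0 f := fun f hf => hf P hP₀.symm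
  have hpoly : ∀ q : Polynomial k, aeval x q ∈ Reg P₀ := by
    intro q
    rw [Polynomial.aeval_eq_sum_range]
    apply Subalgebra.sum_mem
    intro j _
    exact (Reg P₀).smul_mem ((Reg P₀).pow_mem hxreg j) _
  -- the bound on `Reg P₀`
  have key : ∀ s ∈ Reg P₀, P.Ge (-(N : ℤ)) (D s) := by
    intro s hs
    obtain ⟨φ, hφ⟩ := h.span s hs
    rw [hφ, map_sum]
    apply Place.Ge.sum
    intro i _
    rw [D.leibniz, Derivation.map_aeval, smul_eq_mul, smul_eq_mul, smul_eq_mul]
    apply Place.Ge.add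
    · simpa using (hreg _ (hpoly (φ i))).mul (hNu i)
    · have h1 := (hreg _ (h.reg i)).mul ((hreg _ (hpoly (φ i).derivative)).mul hNx)
      simpa using h1
  refine ⟨N, ?_⟩
  intro f hf
  by_cases hf0 : f = 0
  · subst hf0; rw [map_zero]; exact P.ge_zero _
  -- the poles of `f` outside `P₀`
  have hfin : {Q : Place k F | Q ≠ P₀ ∧ ¬ Q.Ge 0 f}.Finite := by
    refine (hV4 k F hF f hf0).subset ?_
    rintro Q ⟨-, hQ⟩
    rw [Function.mem_support]
    intro h1
    exact hQ (Or.inr h1.ge)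
  set S := hfin.toFinset with hS
  have hmemS : ∀ Q, Q ∈ S ↔ Q ≠ P₀ ∧ ¬ Q.Ge 0 f := by
    intro Q; rw [hS, Set.Finite.mem_toFinset]; rfl
  have hPS : P ∉ S := fun h1 => ((hmemS P).1 h1).2 hf
  set m : ℕ := 1 + ∑ Q ∈ S, (Q.ord f).natAbs with hm
  obtain ⟨s, hs, hsS⟩ := hR4 k F hF P₀ (insert P S) m (fun Q => if Q = P then 1 else 0) (by
    rw [Finset.mem_insert, not_or]
    exact ⟨hP₀, fun h1 => ((hmemS P₀).1 h1).1 rfl⟩) (by
    intro Q _
    show Q.Ge 0 (if Q = P then 1 else 0)
    split_ifs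
    · right; rw [Q.ord_one]
    · exact Q.ge_zero 0)
  have hs1 : P.Ge m (s - 1) := by
    have := hsS P (Finset.mem_insert_self _ _)
    simpa using this
  have hs2 : ∀ Q ∈ S, Q.Ge m s := by
    intro Q hQ
    have := hsS Q (Finset.mem_insert_of_mem hQ)
    have hne : Q ≠ P := fun h1 => hPS (by rw [← h1]; exact hQ)
    rwa [if_neg hne, sub_zero] at this
  have hsP : s ≠ 0 ∧ P.ord s = 0 := by
    have h1 : P.Ge (P.ord (1 : F) + 1) (s - 1) := by
      rw [P.ord_one]
      exact hs1.mono (by rw [hm]; omega)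
    have h2 := Place.ord_add_eq one_ne_zero h1
    rw [add_sub_cancel, P.ord_one] at h2
    exact h2
  have hsf : s * f ∈ Reg P₀ := by
    intro Q hQ
    by_cases h1 : Q.Ge 0 f
    · simpa using (hs Q hQ).mul h1
    · have hQS := (hmemS Q).2 ⟨hQ, h1⟩
      have h2 := (hs2 Q hQS).mul (Q.ge_ord f)
      refine h2.mono ?_
      have h3 := Finset.single_le_sum (f := fun Q : Place k F => (Q.ord f).natAbs)
        (fun j _ => Nat.zero_le _) hQS
      have h4 : (Q.ord f).natAbs ≤ ∑ Q ∈ S, (Q.ord f).natAbs := h3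
      rw [hm]
      omega
  have hD : s * D f = D (s * f) - f * D s := by
    rw [D.leibniz, smul_eq_mul, smul_eq_mul]; ring
  have h1 : P.Ge (-(N : ℤ)) (s * D f) := by
    rw [hD]
    apply (key _ hsf).sub
    simpa using hf.mul (key _ hs)
  rcases h1 with h1 | h1
  · left
    exact (mul_eq_zero.1 h1).resolve_left hsP.1
  · by_cases hDf : D f = 0
    · exact Or.inl hDf
    · right
      rw [P.ord_mul _ _ hsP.1 hDf, hsP.2, zero_add] at h1
      exact h1

end

end Pool.Agent.helper53.AU
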