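import Pool.Agent.helper53.AU.SpecG1

namespace Pool.Agent.helper53.AU

open scoped Classical

/-- TC -/
theorem TC : TC_stmt := by
  intro G _ _ S hS
  by_cases h2 : 2 ∣ Nat.card G
  · have hp : (Nat.card G).minFac = 2 := (Nat.minFac_eq_two_iff _).2 h2
    have hc := IsCyclic.isComplement' hp hS
    refine ⟨(MonoidHom.transferSylow S (hS.normalizer_le_centralizer hp)).ker, inferInstance,
      ?_, hc.symm.index_eq_card⟩
    rw [← Nat.not_even_iff_odd, even_iff_two_dvd]
    exact MonoidHom.not_dvd_card_ker_transferSylow S (hS.normalizer_le_centralizer hp)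
  · refine ⟨⊤, inferInstance, ?_, ?_⟩
    · rw [← Nat.not_even_iff_odd, even_iff_two_dvd, Subgroup.card_top]
      exact h2
    · rw [Subgroup.index_top]
      have h3 : Nat.card S = 2 ^ (Nat.card G).factorization 2 := S.card_eq_multiplicity
      rw [h3, Nat.factorization_eq_zero_of_not_dvd h2, pow_zero]

end Pool.Agent.helper53.AU
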